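import Pool.Agent.X292.PS.Irr

/-!
# Finiteness of irreducible pure integral systems over `ℚ`

`n ≥ 1`, `w ≥ 0`, `S` a finite set of primes, `Λ` a set of primes (for example all primes). An integral
system `T` of rank `n` over `ℚ` consists of the realisations `T_ℓ = ℤ_ℓ ^ n` and of the Frobenius
polynomials of a pure motive over `ℚ` with a lattice (without a polarization).

(1) There are only finitely many integral systems of rank `n`, up to isomorphism of the `T_ℓ` for all
`ℓ` in `Λ`, which are pure of weight `w`, with good reduction outside `S` and semistable reduction in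
`S`, and for which `V_ℓ = T_ℓ ⊗ ℚ_ℓ` is irreducible for all `ℓ` in `Λ` and `T_ℓ / ℓ` is irreducible for
almost all `ℓ` in `Λ` (for all large `ℓ`; the bound may depend on the system).

(2) For each such system there are only finitely many Galois stable lattices in the adelic
realisation, up to multiplication by rational numbers (on `Λ`).

(3) A criterion for the condition of (1): the system is polarized, for each `ℓ` in `Λ` there is a good
prime `p ≠ ℓ` whose Frobenius polynomial has no isotropic relation, and for every `0 < d < n`, every
`ℓ` in `Λ` and almost every `ℓ` in `Λ` there is a Galois element which acts unipotently on `V_ℓ`,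
respectively on `T_ℓ / ℓ`, with Jordan blocks such that `d` is not the sum of the sizes of some of them
(for example a generator of the tame inertia group at a prime of `S`, for all `d` at once, if the
sizes of the Jordan blocks have this property; it may depend on `d`).

In (3) the Jordan blocks at one prime of bad reduction can have any sizes: it is only required that
different primes (or powers of different elements) exclude all `d`. So the primes of maximal
degeneration, with one block, of the earlier result `MaximallyDegenerate` are replaced by two good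
Frobenius polynomials and a mild condition on the bad primes.
-/

set_option autoImplicit false

namespace Pool.Agent.Results.MP_78e9a5_nt.IrreducibleSystems

open Pool.Agent.Y126.SH Pool.Agent.Y126.SH.IntegralSystem Pool.Agent.X292.PS.Irr

theorem result (n w : ℕ) (hn : 0 < n) (S : Finset ℕ) (Λ : Set ℕ) :
    (∃ (m : ℕ) (T : Fin m → IntegralSystem n),
      (∀ i, (T i).PureSystem S w ∧ IrreducibleOn Λ (T i)) ∧
      ∀ T' : IntegralSystem n, T'.PureSystem S w → IrreducibleOn Λ T' →
        ∃ i, IsomorphicOn Λ (T i) T') ∧
    (∀ T : IntegralSystem n, T.PureSystem S w → IrreducibleOn Λ T →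
      ∃ (m : ℕ) (L : Fin m → ∀ (ℓ : ℕ) [Fact ℓ.Prime], Submodule ℤ_[ℓ] (Fin n → ℚ_[ℓ])),
        (∀ i, T.IsLattice (L i)) ∧
          ∀ L' : (∀ (ℓ : ℕ) [Fact ℓ.Prime], Submodule ℤ_[ℓ] (Fin n → ℚ_[ℓ])), T.IsLattice L' →
            ∃ i, ProportionalOn Λ (L i) L') ∧
    ∀ T : IntegralSystem n, T.IsPure S w → RigidOn S w Λ T →
      T.PureSystem S w ∧ IrreducibleOn Λ T := by
  obtain ⟨m, T, h1, h2⟩ := finiteness n w hn S Λ
  exact ⟨⟨m, T, h1, fun T' ha hb => h2 T' ⟨ha, hb⟩⟩, fun T ha hb => lattices hn ⟨ha, hb⟩,
    fun T ha hb => ⟨pureSystem_of ha, irreducible_of_rigid ha hb⟩⟩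

end Pool.Agent.Results.MP_78e9a5_nt.IrreducibleSystems
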