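import Pool.Agent.X264.SHA.Main

/-!
# Shafarevich-type finiteness: large fields and even weights
-/

set_option autoImplicit false

open CategoryTheory Pool.Agent.X264.SHA Pool.Agent.X264.SHA.Motives

namespace Pool.Agent.Results.MP_78e9a5_nt.LargeFieldsEvenWeights

/-- **Finiteness of pure integral motives: reduction to large fields and even weights.** Let `X` be
the system of the categories of pure integral motives over number fields such that each object has
only finitely many summands up to `m ≠ 0`.
(1) Finiteness for an extension of `F` implies finiteness for `F` (the same weight, Hodge numbers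
and primes).
(2) If `N` is a motive of nonzero dimension, weight `w'` and Hodge numbers `h'` with good reduction
outside `S` and semistable reduction in `S`, finiteness for `(w + w', h * h', S)` implies finiteness
for `(w, h, S)`.
(3) Let `B` be a cofinal set of number fields. If finiteness is true over the fields in `B` for all
even weights at least `w₀`, all Hodge numbers and all sets of primes which contain `S₀`, then it is
true for all number fields, weights, Hodge numbers and sets of primes. -/
theorem result (X : Motives) (hJ : ∀ F, FiniteSummands (X.Mot F)) (hB : X.BaseChange)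
    (hT : X.Tensor) (hO : X.OddMotive) (hX : Twists (X := X)) :
    (∀ (F F' : X.Fld) (_ : X.Ext F F') (w : ℕ) (h : ℕ → ℕ) (S : Finset ℕ),
      X.Fin F' w h S → X.Fin F w h S) ∧
    (∀ (F : X.Fld) (N : X.Mot F) (m : ℤ) (w w' : ℕ) (h h' : ℕ → ℕ) (S : Finset ℕ),
      HasDim N m → m ≠ 0 → X.Good F w' h' S N → X.Fin F (w + w') (conv h h') S →
        X.Fin F w h S) ∧
    ∀ (B : X.Fld → Prop) (w₀ : ℕ) (S₀ : Finset ℕ), Cofinal B →
      (∀ F, B F → ∀ w, Even w → w₀ ≤ w → ∀ h S, S₀ ⊆ S → X.Fin F w h S) →
        ∀ F w h S, X.Fin F w h S :=
  ⟨fun _ _ e _ _ _ hF => fin_of_ext hJ hB e hF,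
    fun _ _ _ _ _ _ _ _ hN hm hN' hF => fin_of_tensor hJ hT hN hm hN' hF,
    fun B w₀ S₀ hB' h => reduction hJ hB hT hO hX B hB' w₀ S₀ h⟩

end Pool.Agent.Results.MP_78e9a5_nt.LargeFieldsEvenWeights
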