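import Pool.Agent.X292.PS.Main

/-!
# Finiteness of polarized pure integral systems with trivial endomorphisms over `ℚ`

`n ≥ 1`, `w ≥ 0`, `S` a finite set of primes, `N` a bound, `Λ` a set of primes (for example all). There
are only finitely many integral systems `T = (T_ℓ)_ℓ` of rank `n` over `ℚ`, up to isomorphism of the
`T_ℓ` for all `ℓ` in `Λ`, which are pure of weight `w`, with good reduction outside `S` and semistable
reduction in `S`, such that

* `T_ℓ` has a polarization for all `ℓ` in `Λ`, perfect for `ℓ > N` (the degree of the polarization is
  composed of primes `≤ N`, as for principally polarized abelian varieties with `N = 0`);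
* the endomorphisms of `V_ℓ = T_ℓ ⊗ ℚ_ℓ` are scalars, for all `ℓ` in `Λ` (conjecturally: the motive has
  the endomorphism ring `ℚ`);
* for every `ℓ` in `Λ` there is a good prime `p ≠ ℓ` whose Frobenius polynomial has no isotropic
  relation: there is no nonempty family of roots `z` which is, together with the numbers `p ^ w / z`,
  a subfamily of the family of all roots, and whose product is `± p ^ (w d / 2)`, `d` the number of its
  members; instead of this it is enough that `V_ℓ` is irreducible, if this holds for one prime `p`.

So for motives with irreducible `V_ℓ` one Frobenius polynomial, and in general two, replace all the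
conditions on the reduction at the primes of `S` and on the residual representations: `T_ℓ / ℓ` may be
reducible for infinitely many `ℓ`, and there may be no prime of bad reduction at all.

Idea of the proof. Up to `ℓ`-adic isogeny there are finitely many systems, by the method of Faltings.
A stable isotropic subspace of `V_ℓ`, or of `T_ℓ / ℓ` for large `ℓ`, gives by the theorem of Minkowski an
isotropic relation; so there are none, and `V_ℓ` is irreducible. If `T` and `T'` are in the class and in
the same isogeny class, let `B : T'_ℓ → T_ℓ` be an equivariant map which is not divisible by `ℓ`. The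
form of `T_ℓ` pulled back by `B` is a multiple `c J'` of the form `J'` of `T'_ℓ`, as the endomorphisms are
scalars. If `ℓ > N` divides `c`, the image of `B` modulo `ℓ` is isotropic, which is impossible for large
`ℓ`; so `c` and then the determinant of `B` are units. For the other `ℓ` one uses that the index of `B`
is bounded.
-/

set_option autoImplicit false

namespace Pool.Agent.Results.MP_78e9a5_nt.PolarizedSystems

open Pool.Agent.Y126.SH Pool.Agent.Y126.SH.IntegralSystem Pool.Agent.X292.PS

theorem result (n w : ℕ) (hn : 0 < n) (S : Finset ℕ) (N : ℕ) (Λ : Set ℕ) :
    ∃ (m : ℕ) (T : Fin m → IntegralSystem n),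
      (∀ i, (T i).IsPure S w ∧ IsGeneric S w N Λ (T i)) ∧
      ∀ T' : IntegralSystem n, T'.IsPure S w → IsGeneric S w N Λ T' →
        ∃ i, IsomorphicOn Λ (T i) T' := by
  obtain ⟨m, T, h1, h2⟩ := finiteness n w hn S N Λ
  exact ⟨m, T, h1, fun T' ha hb => h2 T' ⟨ha, hb⟩⟩

end Pool.Agent.Results.MP_78e9a5_nt.PolarizedSystems
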