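import Pool.Agent.X61.RI.Leg

/-!
# The finiteness conjecture for an infinite random set of primes of semistable reduction

Let `K` be a number field, `S₀` a finite set of primes of `K` which contains the primes above `2`,
and `T` a random set of primes: the events `v ∈ T` are independent and of probability at most
`N(v) ^ (-τ)`, where `τ > 2/3`. For probabilities `N(v) ^ (-τ)` with `τ ≤ 1` such a set `T` is
infinite.

1. With probability one there are, up to isomorphism over `K`, only finitely many elliptic curves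
   over `K` with full 2-torsion over `K` which have good reduction at all primes outside `S₀ ∪ T` and
   semistable reduction at the primes of `T` which are not in `S₀`.
2. With probability at least `1 - C R ^ (-δ)`, `0 < δ < τ - 2/3`, all such curves for the set of the
   primes of `T` of norm at least `R` have good reduction outside `S₀`.
-/

set_option autoImplicit false

namespace Pool.Agent.Results.MP_78e9a5_nt.RandomSemistableReduction

open NumberField IsDedekindDomain MeasureTheory ProbabilityTheory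
open Pool.Agent.X61.RI (UnitAt FullTwoTorsion GoodAt SemistableAt leg)

variable {K : Type} [Field K] [NumberField K]

/-- the absolute norm of a prime -/
noncomputable def norm (v : HeightOneSpectrum (𝓞 K)) : ℝ := (Ideal.absNorm v.asIdeal : ℝ)

theorem good_smul {v : HeightOneSpectrum (𝓞 K)} {W : WeierstrassCurve K}
    (h : GoodAt v W) (D : WeierstrassCurve.VariableChange K) : GoodAt v (D • W) := by
  obtain ⟨C, h1, h2⟩ := h
  refine ⟨C * D⁻¹, ?_⟩
  rw [mul_smul, inv_smul_smul]
  exact ⟨h1, h2⟩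

/-- the form of the curve -/
theorem form (W : WeierstrassCurve K) (hW : W.IsElliptic) (h : FullTwoTorsion W) :
    ∃ (A B : K) (C : WeierstrassCurve.VariableChange K), A ≠ 0 ∧ B ≠ 0 ∧ A ≠ B ∧
      C • W = leg A B := by
  obtain ⟨a, b, c, h⟩ := h
  obtain ⟨C, hC⟩ := Pool.Agent.X61.RI.iso_leg h
  have hΔ : (leg (b - a) (c - a)).Δ ≠ 0 := by
    rw [← hC, WeierstrassCurve.variableChange_Δ, ← W.coe_Δ']
    exact mul_ne_zero (pow_ne_zero _ (Units.ne_zero _)) (Units.ne_zero _)
  rw [Pool.Agent.X61.RI.leg_Δ] at hΔ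
  refine ⟨b - a, c - a, C, fun h0 => hΔ ?_, fun h0 => hΔ ?_, fun h0 => hΔ ?_, hC⟩
  · rw [h0]
    ring
  · rw [h0]
    ring
  · rw [h0]
    ring

theorem bad_finite {x : K} (hx : x ≠ 0 ∧ x ≠ 1) :
    {v : HeightOneSpectrum (𝓞 K) | ¬ UnitAt v x}.Finite := by
  have h := Pool.Agent.Y911.RR.rad_finite (α := (![0, 1] : Fin 2 → K)) (z := x)
    (Pool.Agent.X61.RI.off01 hx)
  refine h.subset fun v hv => ?_
  by_contra hcon
  apply hv
  simp only [Set.mem_setOf_eq, not_exists, not_not] at hcon
  have h0 := hcon 0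
  have h1 := hcon 1
  simp only [Matrix.cons_val_zero, Matrix.cons_val_one, sub_zero] at h0 h1
  exact ⟨h0, h1⟩

theorem even_val {v : HeightOneSpectrum (𝓞 K)} {a u : Kˣ}
    (h : v.valuation K (a : K) = v.valuation K (u : K) ^ 2) :
    Even (Multiplicative.toAdd (v.valuationOfNeZero a)) := by
  have h1 : v.valuationOfNeZero a = v.valuationOfNeZero u ^ 2 := by
    have h2 : ((v.valuationOfNeZero a : Multiplicative ℤ) : WithZero (Multiplicative ℤ)) =
        ((v.valuationOfNeZero u ^ 2 : Multiplicative ℤ) : WithZero (Multiplicative ℤ)) := by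
      rw [WithZero.coe_pow, HeightOneSpectrum.valuationOfNeZero_eq,
        HeightOneSpectrum.valuationOfNeZero_eq]
      exact h
    exact WithZero.coe_injective h2
  rw [h1, toAdd_pow, nsmul_eq_mul]
  exact even_two.mul_right _

/-- finitely many curves, if there are finitely many possible parameters -/
theorem finite_curves {S₀ U : Set (HeightOneSpectrum (𝓞 K))} (hS₀ : S₀.Finite)
    (h2 : ∀ v : HeightOneSpectrum (𝓞 K), v ∉ S₀ → v.valuation K 2 = 1)
    (hU : {x : K | (x ≠ 0 ∧ x ≠ 1) ∧ ∀ v, v ∉ S₀ → v ∉ U → UnitAt v x}.Finite) :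
    ∃ F : Set (WeierstrassCurve K), F.Finite ∧ ∀ W : WeierstrassCurve K, W.IsElliptic →
      FullTwoTorsion W → (∀ v, v ∉ S₀ → v ∉ U → GoodAt v W) →
      (∀ v, v ∉ S₀ → v ∈ U → SemistableAt v W) →
      ∃ W' ∈ F, ∃ C : WeierstrassCurve.VariableChange K, C • W = W' := by
  set L : Set K := {x : K | (x ≠ 0 ∧ x ≠ 1) ∧ ∀ v, v ∉ S₀ → v ∉ U → UnitAt v x} with hL
  have hS₁ : (S₀ ∪ ⋃ x ∈ L, {v : HeightOneSpectrum (𝓞 K) | ¬ UnitAt v x}).Finite :=
    hS₀.union (hU.biUnion fun x hx => bad_finite hx.1)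
  obtain ⟨T, hT0, hT⟩ := Pool.Agent.H437R2.Man.MW.sel_finite _ hS₁
  refine ⟨Set.image2 (fun t x => leg t (t * x)) (T : Set K) L,
    Set.Finite.image2 _ T.finite_toSet hU, ?_⟩
  intro W hW hW2 hg hs
  obtain ⟨A, B, C, hA, hB, hAB, hC⟩ := form W hW hW2
  have hx : B / A ≠ 0 ∧ B / A ≠ 1 := by
    refine ⟨div_ne_zero hB hA, fun h => hAB ?_⟩
    rw [div_eq_one_iff_eq hA] at h
    exact h.symm
  have hss : ∀ v, v ∉ S₀ → SemistableAt v (leg A B) := by
    intro v hv
    rw [← hC]
    by_cases hvU : v ∈ U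
    · exact (hs v hv hvU).smul C
    · exact (hg v hv hvU).semistable.smul C
  have hmem : B / A ∈ L := by
    refine ⟨hx, fun v hv hvU => ?_⟩
    have h3 := good_smul (hg v hv hvU) C
    rw [hC] at h3
    exact Pool.Agent.X61.RI.unit_of_good (h2 v hv) hA hB hAB h3
  obtain ⟨t, ht, b, hb, hAt⟩ := hT (Units.mk0 A hA) (by
    intro v hv
    rw [Set.mem_union, not_or] at hv
    have hu : UnitAt v (B / A) := by
      by_contra hcon
      exact hv.2 (Set.mem_iUnion₂.2 ⟨_, hmem, hcon⟩)
    obtain ⟨u, hu'⟩ := Pool.Agent.X61.RI.even_of_semistable (h2 v hv.1) hA hu (hss v hv.1)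
    exact even_val (a := Units.mk0 A hA) (u := u) hu')
  rw [Units.val_mk0] at hAt
  obtain ⟨C₁, hC₁⟩ := Pool.Agent.X61.RI.leg_sq t (t * (B / A)) hb
  refine ⟨leg t (t * (B / A)), Set.mem_image2_of_mem ht hmem, C₁ * C, ?_⟩
  have e1 : A = b ^ 2 * t := by rw [hAt]; ring
  have e2 : B = b ^ 2 * (t * (B / A)) := by
    calc B = A * (B / A) := by field_simp
      _ = (b ^ 2 * t) * (B / A) := by rw [← e1]
      _ = _ := by ring
  rw [mul_smul, hC]
  calc C₁ • leg A B = C₁ • leg (b ^ 2 * t) (b ^ 2 * (t * (B / A))) := by rw [← e1, ← e2]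
    _ = _ := hC₁

/-- **Random primes of semistable reduction.** Let `K` be a number field, `S₀` a finite set of primes
of `K` containing the primes above `2`, and `τ > 2/3`. Let `T = {v | ω ∈ E v}` be a random set of
primes, where the events `E v` are independent, of probability at most `N(v) ^ (-τ)`.

(1) With probability one there is a finite set of Weierstrass equations over `K` such that every
elliptic curve over `K` with full 2-torsion over `K`, with good reduction at all primes outside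
`S₀ ∪ T` and semistable reduction at the primes of `T` outside `S₀`, is isomorphic over `K` to one
of them.

(2) For `0 < δ < τ - 2/3` there is a constant `C`, depending on `K`, `S₀`, `τ` and `δ` only, such that
for every `R > 0` with probability at least `1 - C R ^ (-δ)` all elliptic curves over `K` with full
2-torsion over `K`, with semistable reduction outside `S₀` and good reduction outside `S₀` and the
primes of `T` of norm at least `R` have good reduction outside `S₀`. -/
theorem result (K : Type) [Field K] [NumberField K] (S₀ : Set (HeightOneSpectrum (𝓞 K)))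
    (hS₀ : S₀.Finite) (h2 : ∀ v : HeightOneSpectrum (𝓞 K), v ∉ S₀ → v.valuation K 2 = 1)
    (τ : ℝ) (hτ : 2 / 3 < τ) :
    (∀ (Ω : Type) [MeasurableSpace Ω] (μ : Measure Ω) (E : HeightOneSpectrum (𝓞 K) → Set Ω),
      iIndepSet E μ → (∀ v, μ (E v) ≤ ENNReal.ofReal (norm v ^ (-τ))) →
      ∀ᵐ ω ∂μ, ∃ F : Set (WeierstrassCurve K), F.Finite ∧ ∀ W : WeierstrassCurve K,
        W.IsElliptic → FullTwoTorsion W → (∀ v, v ∉ S₀ → ω ∉ E v → GoodAt v W) →
        (∀ v, v ∉ S₀ → ω ∈ E v → SemistableAt v W) →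
        ∃ W' ∈ F, ∃ C : WeierstrassCurve.VariableChange K, C • W = W') ∧
    (∀ δ : ℝ, 0 < δ → δ < τ - 2 / 3 → ∃ C : ℝ, 0 < C ∧
      ∀ (Ω : Type) [MeasurableSpace Ω] (μ : Measure Ω) (E : HeightOneSpectrum (𝓞 K) → Set Ω),
      iIndepSet E μ → (∀ v, μ (E v) ≤ ENNReal.ofReal (norm v ^ (-τ))) → ∀ R : ℝ, 0 < R →
      μ {ω | ¬ ∀ W : WeierstrassCurve K, W.IsElliptic → FullTwoTorsion W →
        (∀ v, v ∉ S₀ → SemistableAt v W) →
        (∀ v, v ∉ S₀ → ¬ (R ≤ norm v ∧ ω ∈ E v) → GoodAt v W) →
        ∀ v, v ∉ S₀ → GoodAt v W} ≤ ENNReal.ofReal (C * R ^ (-δ))) := by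
  refine ⟨fun Ω _ μ E hi hE => ?_, fun δ hδ hδτ => ?_⟩
  · filter_upwards [Pool.Agent.X61.RI.units_finite S₀ hS₀ hτ hi hE] with ω hω
    exact finite_curves (U := {v | ω ∈ E v}) hS₀ h2 hω
  · obtain ⟨C, hC, h⟩ := Pool.Agent.X61.RI.units_small S₀ hS₀ hδ hδτ
    refine ⟨C, hC, fun Ω _ μ E hi hE R hR => (measure_mono ?_).trans (h μ E hi hE R hR)⟩
    intro ω hω
    by_contra hcon
    apply hω
    intro W hW hW2 hs hg v hv
    obtain ⟨A, B, D, hA, hB, hAB, hD⟩ := form W hW hW2
    have hx : B / A ≠ 0 ∧ B / A ≠ 1 := by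
      refine ⟨div_ne_zero hB hA, fun h => hAB ?_⟩
      rw [div_eq_one_iff_eq hA] at h
      exact h.symm
    have hu : UnitAt v (B / A) := by
      by_contra hnu
      refine hcon ⟨B / A, hx, fun w hw hw' => ?_, v, hv, hnu⟩
      have h3 := good_smul (hg w hw hw') D
      rw [hD] at h3
      exact Pool.Agent.X61.RI.unit_of_good (h2 w hw) hA hB hAB h3
    have hs' := (hs v hv).smul D
    rw [hD] at hs'
    obtain ⟨u, hu'⟩ := Pool.Agent.X61.RI.even_of_semistable (h2 v hv) hA hu hs'
    have h4 := Pool.Agent.X61.RI.good_of_even (h2 v hv) hA hu u hu'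
    have h5 := good_smul h4 D⁻¹
    rw [← hD, inv_smul_smul] at h5
    exact h5

end Pool.Agent.Results.MP_78e9a5_nt.RandomSemistableReduction
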